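import Mathlib

/-!
# No degree bound forces condition ND(2) in codimension three

Curves of arbitrarily large degree on the projected Veronese surface in `P⁴` lie on no quadric,
but all their hyperplane sections do.
-/

open MvPolynomial

namespace Pool.Agent.Results.MP_63e4a9_ag.NoDegreeBound

section Definitions

variable {k : Type*} [Field k] {r : ℕ}

/-- `P` is the homogeneous ideal of a variety in the projective space with `r` homogeneous
coordinates: it is prime and contains the homogeneous components of its elements. -/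
def IsVarietyIdeal (P : Ideal (MvPolynomial (Fin r) k)) : Prop :=
  P.IsPrime ∧ ∀ f ∈ P, ∀ d, homogeneousComponent d f ∈ P

/-- The Hilbert function of `k[x] / P`. -/
noncomputable def hilb (P : Ideal (MvPolynomial (Fin r) k)) (m : ℕ) : ℕ :=
  Module.finrank k
    ((homogeneousSubmodule (Fin r) k m).map (Ideal.Quotient.mkₐ k P).toLinearMap)

/-- The subscheme with ideal `P` has dimension `n` and degree `d`: the Hilbert polynomial `H` has
degree `n` and leading coefficient `d / n!`. -/
def HasDimDegree (P : Ideal (MvPolynomial (Fin r) k)) (n d : ℕ) : Prop :=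
  ∃ H : Polynomial ℚ, H.natDegree = n ∧ H.leadingCoeff * (n.factorial : ℚ) = d ∧
    ∃ m₀ : ℕ, ∀ m, m₀ ≤ m → (hilb P m : ℚ) = H.eval (m : ℚ)

/-- The ideal generated by the `c` linear forms with coefficients `a`. -/
noncomputable def linIdeal {c : ℕ} (a : Fin c × Fin r → k) : Ideal (MvPolynomial (Fin r) k) :=
  Ideal.span (Set.range fun i : Fin c => ∑ j, C (a (i, j)) * X j)

/-- `q` lies in the saturation of `J`: it is multiplied into `J` by a power of the ideal
generated by the variables. -/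
def InSaturation (J : Ideal (MvPolynomial (Fin r) k)) (q : MvPolynomial (Fin r) k) : Prop :=
  ∃ s : ℕ, ∀ g ∈ (Ideal.span (Set.range (X : Fin r → MvPolynomial (Fin r) k))) ^ s, g * q ∈ J

/-- Condition ND(l) for the closed subscheme `X` of codimension `e` with homogeneous ideal `P` in
the projective space with `r` homogeneous coordinates: for every number `c` of linear equations
with `r - 1 - c ≥ e` and a general `c`-tuple of linear forms (outside the zero set of a nonzero
polynomial `g` in their coefficients), every form of degree `l` in the saturated ideal of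
`X ∩ Λ`, where `Λ` is the common zero set of the linear forms, vanishes on `Λ`. -/
def ND (e l : ℕ) (P : Ideal (MvPolynomial (Fin r) k)) : Prop :=
  ∀ c : ℕ, c + e + 1 ≤ r → ∃ g : MvPolynomial (Fin c × Fin r) k, g ≠ 0 ∧
    ∀ a : Fin c × Fin r → k, eval a g ≠ 0 →
      ∀ q : MvPolynomial (Fin r) k, q.IsHomogeneous l →
        InSaturation (P ⊔ linIdeal a) q → q ∈ linIdeal a

end Definitions

section Veronese

variable (k : Type*) [Field k]

/-- The five quadratic forms defining the projected Veronese surface. -/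
noncomputable def w : Fin 5 → MvPolynomial (Fin 3) k :=
  ![X 0 ^ 2, X 2 ^ 2, X 0 * X 1, X 1 * X 2, X 1 ^ 2 - X 0 * X 2]

/-- Their span. -/
noncomputable def W : Submodule k (MvPolynomial (Fin 3) k) := Submodule.span k (Set.range (w k))

/-- The ring map of the projected Veronese surface. -/
noncomputable def ver : MvPolynomial (Fin 5) k →ₐ[k] MvPolynomial (Fin 3) k := aeval (w k)

variable {k}

lemma w_mem (i : Fin 5) : w k i ∈ W k := Submodule.subset_span ⟨i, rfl⟩

lemma w_hom (i : Fin 5) : (w k i).IsHomogeneous 2 := by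
  have h2 : ∀ j : Fin 3, (X j ^ 2 : MvPolynomial (Fin 3) k).IsHomogeneous 2 := by
    intro j
    simpa using (isHomogeneous_X k j).pow 2
  have h11 : ∀ i j : Fin 3, (X i * X j : MvPolynomial (Fin 3) k).IsHomogeneous 2 := by
    intro i j
    exact (isHomogeneous_X k i).mul (isHomogeneous_X k j)
  fin_cases i
  · exact h2 0
  · exact h2 2
  · exact h11 0 1
  · exact h11 1 2
  · exact (h2 1).sub (h11 0 2)

lemma W_le : W k ≤ homogeneousSubmodule (Fin 3) k 2 := by
  rw [W, Submodule.span_le]
  rintro _ ⟨i, rfl⟩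
  exact w_hom i

lemma ww_mem (i j : Fin 5) : w k i * w k j ∈ W k ^ 2 := by
  rw [pow_two]
  exact Submodule.mul_mem_mul (w_mem i) (w_mem j)

lemma map_ver (m : ℕ) :
    (homogeneousSubmodule (Fin 5) k m).map (ver k).toLinearMap = W k ^ m := by
  rw [← homogeneousSubmodule_one_pow, Submodule.map_pow, homogeneousSubmodule_one_eq_span_X,
    Submodule.map_span]
  congr 1
  rw [W]
  congr 1
  ext f
  constructor
  · rintro ⟨_, ⟨i, rfl⟩, rfl⟩
    exact ⟨i, by simp [ver]⟩
  · rintro ⟨i, rfl⟩
    exact ⟨X i, ⟨i, rfl⟩, by simp [ver]⟩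

lemma y2w_mem (i : Fin 5) : (X 1 ^ 2 : MvPolynomial (Fin 3) k) * w k i ∈ W k ^ 2 := by
  fin_cases i
  · have : (X 1 ^ 2 : MvPolynomial (Fin 3) k) * w k 0 = w k 2 * w k 2 := by
      simp [w]; ring
    simp only [Fin.zero_eta]
    rw [this]; exact ww_mem _ _
  · have : (X 1 ^ 2 : MvPolynomial (Fin 3) k) * w k 1 = w k 3 * w k 3 := by
      simp [w]; ring
    simp only [Fin.mk_one]
    rw [this]; exact ww_mem _ _
  · have : (X 1 ^ 2 : MvPolynomial (Fin 3) k) * w k 2 = w k 2 * w k 4 + w k 0 * w k 3 := by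
      simp [w]; ring
    change _ * w k 2 ∈ _
    rw [this]; exact Submodule.add_mem _ (ww_mem _ _) (ww_mem _ _)
  · have : (X 1 ^ 2 : MvPolynomial (Fin 3) k) * w k 3 = w k 3 * w k 4 + w k 1 * w k 2 := by
      simp [w]; ring
    change _ * w k 3 ∈ _
    rw [this]; exact Submodule.add_mem _ (ww_mem _ _) (ww_mem _ _)
  · have : (X 1 ^ 2 : MvPolynomial (Fin 3) k) * w k 4 =
        w k 4 * w k 4 + w k 2 * w k 3 - w k 0 * w k 1 := by
      simp [w]; ring
    change _ * w k 4 ∈ _
    rw [this]
    exact Submodule.sub_mem _ (Submodule.add_mem _ (ww_mem _ _) (ww_mem _ _)) (ww_mem _ _)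

lemma y4_mem : (X 1 ^ 2 : MvPolynomial (Fin 3) k) * X 1 ^ 2 ∈ W k ^ 2 := by
  have : (X 1 ^ 2 : MvPolynomial (Fin 3) k) * X 1 ^ 2 =
      w k 4 * w k 4 + w k 2 * w k 3 + w k 2 * w k 3 - w k 0 * w k 1 := by
    simp [w]; ring
  rw [this]
  exact Submodule.sub_mem _ (Submodule.add_mem _ (Submodule.add_mem _ (ww_mem _ _) (ww_mem _ _))
    (ww_mem _ _)) (ww_mem _ _)

lemma S2_le : homogeneousSubmodule (Fin 3) k 2 ≤ W k ⊔ Submodule.span k {X 1 ^ 2} := by
  rw [← homogeneousSubmodule_one_pow, pow_two, homogeneousSubmodule_one_eq_span_X,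
    Submodule.span_mul_span, Submodule.span_le]
  rintro _ ⟨_, ⟨i, rfl⟩, _, ⟨j, rfl⟩, rfl⟩
  have hw : ∀ i, w k i ∈ W k ⊔ Submodule.span k {(X 1 ^ 2 : MvPolynomial (Fin 3) k)} :=
    fun i => Submodule.mem_sup_left (w_mem i)
  have hy : (X 1 ^ 2 : MvPolynomial (Fin 3) k) ∈
      W k ⊔ Submodule.span k {(X 1 ^ 2 : MvPolynomial (Fin 3) k)} :=
    Submodule.mem_sup_right (Submodule.mem_span_singleton_self _)
  have e00 : (X 0 * X 0 : MvPolynomial (Fin 3) k) = w k 0 := by simp [w]; ring
  have e22 : (X 2 * X 2 : MvPolynomial (Fin 3) k) = w k 1 := by simp [w]; ring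
  have e01 : (X 0 * X 1 : MvPolynomial (Fin 3) k) = w k 2 := by simp [w]
  have e12 : (X 1 * X 2 : MvPolynomial (Fin 3) k) = w k 3 := by simp [w]
  have e11 : (X 1 * X 1 : MvPolynomial (Fin 3) k) = X 1 ^ 2 := by ring
  have e02 : (X 0 * X 2 : MvPolynomial (Fin 3) k) = X 1 ^ 2 - w k 4 := by simp [w]
  have h : ∀ i j : Fin 3, i ≤ j → (X i * X j : MvPolynomial (Fin 3) k) ∈
      W k ⊔ Submodule.span k {(X 1 ^ 2 : MvPolynomial (Fin 3) k)} := by
    intro i j hij
    fin_cases i <;> fin_cases j <;> simp only [Fin.zero_eta, Fin.mk_one, Fin.reduceFinMk] at hij ⊢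
    · rw [e00]; exact hw 0
    · rw [e01]; exact hw 2
    · rw [e02]; exact Submodule.sub_mem _ hy (hw 4)
    · exact absurd hij (by decide)
    · rw [e11]; exact hy
    · rw [e12]; exact hw 3
    · exact absurd hij (by decide)
    · exact absurd hij (by decide)
    · rw [e22]; exact hw 1
  rcases le_total i j with hij | hij
  · exact h i j hij
  · have := h j i hij
    rwa [mul_comm] at this

lemma S4_le : homogeneousSubmodule (Fin 3) k 4 ≤ W k ^ 2 := by
  have h4 : homogeneousSubmodule (Fin 3) k 4 =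
      homogeneousSubmodule (Fin 3) k 2 * homogeneousSubmodule (Fin 3) k 2 := by
    rw [← homogeneousSubmodule_one_pow (σ := Fin 3) (R := k) (n := 4),
      ← homogeneousSubmodule_one_pow (σ := Fin 3) (R := k) (n := 2), ← pow_add]
  rw [h4]
  refine (mul_le_mul' S2_le S2_le).trans ?_
  have hWy : W k * Submodule.span k {(X 1 ^ 2 : MvPolynomial (Fin 3) k)} ≤ W k ^ 2 := by
    rw [W, Submodule.span_mul_span, Submodule.span_le]
    rintro _ ⟨_, ⟨i, rfl⟩, _, rfl, rfl⟩
    have := y2w_mem (k := k) i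
    rw [mul_comm] at this
    exact this
  have hyy : Submodule.span k {(X 1 ^ 2 : MvPolynomial (Fin 3) k)} *
      Submodule.span k {(X 1 ^ 2 : MvPolynomial (Fin 3) k)} ≤ W k ^ 2 := by
    rw [Submodule.span_mul_span, Submodule.span_le]
    rintro _ ⟨_, rfl, _, rfl, rfl⟩
    exact y4_mem
  rw [Submodule.sup_mul, Submodule.mul_sup, Submodule.mul_sup]
  refine sup_le (sup_le (by rw [pow_two]) hWy) (sup_le ?_ hyy)
  rw [mul_comm]
  exact hWy

lemma S_eq (m : ℕ) (hm : 2 ≤ m) : homogeneousSubmodule (Fin 3) k (2 * m) = W k ^ m := by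
  have hpow : ∀ m, homogeneousSubmodule (Fin 3) k (2 * m) =
      homogeneousSubmodule (Fin 3) k 2 ^ m := by
    intro m
    rw [← homogeneousSubmodule_one_pow (σ := Fin 3) (R := k) (n := 2 * m),
      ← homogeneousSubmodule_one_pow (σ := Fin 3) (R := k) (n := 2), ← pow_mul]
  apply le_antisymm
  · induction m, hm using Nat.le_induction with
    | base => exact S4_le
    | succ m hm ih =>
      have h1 : homogeneousSubmodule (Fin 3) k (2 * (m + 1)) =
          homogeneousSubmodule (Fin 3) k 2 * homogeneousSubmodule (Fin 3) k (2 * m) := by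
        rw [hpow, hpow, pow_succ']
      rw [h1]
      obtain ⟨m', rfl⟩ : ∃ m', m = m' + 1 := ⟨m - 1, by omega⟩
      calc homogeneousSubmodule (Fin 3) k 2 * homogeneousSubmodule (Fin 3) k (2 * (m' + 1))
          ≤ homogeneousSubmodule (Fin 3) k 2 * W k ^ (m' + 1) :=
            mul_le_mul' le_rfl ih
        _ = (homogeneousSubmodule (Fin 3) k 2 * W k) * W k ^ m' := by
            rw [pow_succ', mul_assoc]
        _ ≤ (homogeneousSubmodule (Fin 3) k 2 * homogeneousSubmodule (Fin 3) k 2) * W k ^ m' :=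
            mul_le_mul' (mul_le_mul' le_rfl W_le) le_rfl
        _ = homogeneousSubmodule (Fin 3) k 4 * W k ^ m' := by
            rw [← pow_two, ← hpow]
        _ ≤ W k ^ 2 * W k ^ m' := mul_le_mul' S4_le le_rfl
        _ = W k ^ (m' + 1 + 1) := by rw [← pow_add]; congr 1; omega
  · rw [hpow]
    exact pow_le_pow_left' W_le m

end Veronese

section Curve

variable (k : Type*) [Field k]

/-- The parametrization of the plane curve `y^(D+1) = x^D z`. -/
noncomputable def par (D : ℕ) : MvPolynomial (Fin 3) k →ₐ[k] MvPolynomial (Fin 2) k :=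
  aeval ![X 0 ^ (D + 1), X 0 ^ D * X 1, X 1 ^ (D + 1)]

/-- The image of the monomial `x^a y^b z^c`. -/
noncomputable def v (D a b c : ℕ) : MvPolynomial (Fin 2) k :=
  X 0 ^ ((D + 1) * a + D * b) * X 1 ^ (b + (D + 1) * c)

/-- The homogeneous ideal of the curve. -/
noncomputable def curveIdeal (D : ℕ) : Ideal (MvPolynomial (Fin 5) k) :=
  RingHom.ker ((par k D).comp (ver k))

variable {k}

lemma par_mon (D a b c : ℕ) : par k D (X 0 ^ a * X 1 ^ b * X 2 ^ c) = v k D a b c := by
  simp only [par, map_mul, map_pow, aeval_X, v]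
  simp only [Matrix.cons_val_zero, Matrix.cons_val_one, Matrix.cons_val]
  ring

lemma v_eq (D a b c : ℕ) : v k D a b c =
    monomial (Finsupp.single 0 ((D + 1) * a + D * b) + Finsupp.single 1 (b + (D + 1) * c)) 1 := by
  rw [v, X_pow_eq_monomial, X_pow_eq_monomial, monomial_mul, one_mul]

/-- The table of lifts of quartic monomials. -/
noncomputable def Psi : ℕ → ℕ → MvPolynomial (Fin 5) k
  | 0, 0 => X 0 * X 0
  | 0, 1 => X 2 * X 2 - X 0 * X 4
  | 0, 2 => X 0 * X 1
  | 0, 3 => X 3 * X 3 - X 1 * X 4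
  | 0, 4 => X 1 * X 1
  | 1, 0 => X 0 * X 2
  | 1, 1 => X 0 * X 3
  | 1, 2 => X 1 * X 2
  | 1, 3 => X 1 * X 3
  | 2, 0 => X 2 * X 2
  | 2, 1 => X 2 * X 3
  | 2, 2 => X 3 * X 3
  | 3, 0 => X 2 * X 4 + X 0 * X 3
  | 3, 1 => X 3 * X 4 + X 1 * X 2
  | 4, 0 => X 4 * X 4 + (X 2 * X 3 + X 2 * X 3) - X 0 * X 1
  | _, _ => 0

/-- The linear lift. -/
noncomputable def psi (D : ℕ) : MvPolynomial (Fin 2) k →ₗ[k] MvPolynomial (Fin 5) k :=
  (basisMonomials (Fin 2) k).constr k (fun m => Psi (m 1 % (D + 1)) (m 1 / (D + 1)))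

lemma psi_v {D a b c : ℕ} (hb : b ≤ D) : psi D (v k D a b c) = Psi b c := by
  have h0 : v k D a b c = basisMonomials (Fin 2) k
      (Finsupp.single 0 ((D + 1) * a + D * b) + Finsupp.single 1 (b + (D + 1) * c)) := by
    rw [v_eq, coe_basisMonomials]
  rw [h0, psi, Module.Basis.constr_basis]
  have h1 : (b + (D + 1) * c) % (D + 1) = b := by
    rw [Nat.add_mul_mod_self_left]
    exact Nat.mod_eq_of_lt (by omega)
  have h2 : (b + (D + 1) * c) / (D + 1) = c := by
    rw [Nat.add_mul_div_left _ _ (by omega), Nat.div_eq_of_lt (by omega), zero_add]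
  simp [h1, h2]

lemma psi_XX {D : ℕ} (hD : 4 ≤ D) (i j : Fin 5) :
    psi D (par k D (ver k (X i * X j))) = X i * X j := by
  have hw : ∀ i j, ver k (X i * X j) = w k i * w k j := by
    intro i j
    simp [ver]
  have key : ∀ i j : Fin 5, i ≤ j → psi D (par k D (w k i * w k j)) = X i * X j := by
    intro i j hij
    have c00 : w k 0 * w k 0 = X 0 ^ 4 * X 1 ^ 0 * X 2 ^ 0 := by simp [w]; ring
    have c01 : w k 0 * w k 1 = X 0 ^ 2 * X 1 ^ 0 * X 2 ^ 2 := by simp [w]
    have c02 : w k 0 * w k 2 = X 0 ^ 3 * X 1 ^ 1 * X 2 ^ 0 := by simp [w]; ring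
    have c03 : w k 0 * w k 3 = X 0 ^ 2 * X 1 ^ 1 * X 2 ^ 1 := by simp [w]; ring
    have c04 : w k 0 * w k 4 = X 0 ^ 2 * X 1 ^ 2 * X 2 ^ 0 - X 0 ^ 3 * X 1 ^ 0 * X 2 ^ 1 := by
      simp [w]; ring
    have c11 : w k 1 * w k 1 = X 0 ^ 0 * X 1 ^ 0 * X 2 ^ 4 := by simp [w]; ring
    have c12 : w k 1 * w k 2 = X 0 ^ 1 * X 1 ^ 1 * X 2 ^ 2 := by simp [w]; ring
    have c13 : w k 1 * w k 3 = X 0 ^ 0 * X 1 ^ 1 * X 2 ^ 3 := by simp [w]; ring
    have c14 : w k 1 * w k 4 = X 0 ^ 0 * X 1 ^ 2 * X 2 ^ 2 - X 0 ^ 1 * X 1 ^ 0 * X 2 ^ 3 := by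
      simp [w]; ring
    have c22 : w k 2 * w k 2 = X 0 ^ 2 * X 1 ^ 2 * X 2 ^ 0 := by simp [w]; ring
    have c23 : w k 2 * w k 3 = X 0 ^ 1 * X 1 ^ 2 * X 2 ^ 1 := by simp [w]; ring
    have c24 : w k 2 * w k 4 = X 0 ^ 1 * X 1 ^ 3 * X 2 ^ 0 - X 0 ^ 2 * X 1 ^ 1 * X 2 ^ 1 := by
      simp [w]; ring
    have c33 : w k 3 * w k 3 = X 0 ^ 0 * X 1 ^ 2 * X 2 ^ 2 := by simp [w]; ring
    have c34 : w k 3 * w k 4 = X 0 ^ 0 * X 1 ^ 3 * X 2 ^ 1 - X 0 ^ 1 * X 1 ^ 1 * X 2 ^ 2 := by
      simp [w]; ring
    have c44 : w k 4 * w k 4 = X 0 ^ 0 * X 1 ^ 4 * X 2 ^ 0 -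
        (X 0 ^ 1 * X 1 ^ 2 * X 2 ^ 1 + X 0 ^ 1 * X 1 ^ 2 * X 2 ^ 1) +
        X 0 ^ 2 * X 1 ^ 0 * X 2 ^ 2 := by
      simp [w]; ring
    fin_cases i <;> fin_cases j <;>
      simp only [Fin.zero_eta, Fin.mk_one, Fin.reduceFinMk] at hij ⊢
    · rw [c00, par_mon, psi_v (by omega)]; rfl
    · rw [c01, par_mon, psi_v (by omega)]; rfl
    · rw [c02, par_mon, psi_v (by omega)]; rfl
    · rw [c03, par_mon, psi_v (by omega)]; rfl
    · rw [c04, map_sub, map_sub, par_mon, par_mon, psi_v (by omega), psi_v (by omega)]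
      simp only [Psi]; ring
    · exact absurd hij (by decide)
    · rw [c11, par_mon, psi_v (by omega)]; rfl
    · rw [c12, par_mon, psi_v (by omega)]; rfl
    · rw [c13, par_mon, psi_v (by omega)]; rfl
    · rw [c14, map_sub, map_sub, par_mon, par_mon, psi_v (by omega), psi_v (by omega)]
      simp only [Psi]; ring
    · exact absurd hij (by decide)
    · exact absurd hij (by decide)
    · rw [c22, par_mon, psi_v (by omega)]; rfl
    · rw [c23, par_mon, psi_v (by omega)]; rfl
    · rw [c24, map_sub, map_sub, par_mon, par_mon, psi_v (by omega), psi_v (by omega)]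
      simp only [Psi]; ring
    · exact absurd hij (by decide)
    · exact absurd hij (by decide)
    · exact absurd hij (by decide)
    · rw [c33, par_mon, psi_v (by omega)]; rfl
    · rw [c34, map_sub, map_sub, par_mon, par_mon, psi_v (by omega), psi_v (by omega)]
      simp only [Psi]; ring
    · exact absurd hij (by decide)
    · exact absurd hij (by decide)
    · exact absurd hij (by decide)
    · exact absurd hij (by decide)
    · rw [c44, map_add, map_add, map_sub, map_sub, map_add, map_add, par_mon, par_mon, par_mon,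
        psi_v (by omega), psi_v (by omega), psi_v (by omega)]
      simp only [Psi]; ring
  rw [hw]
  rcases le_total i j with hij | hij
  · exact key i j hij
  · rw [mul_comm (w k i), key j i hij, mul_comm]

/-- No quadric contains the curve. -/
lemma no_quadric {D : ℕ} (hD : 4 ≤ D) {q : MvPolynomial (Fin 5) k} (hq : q.IsHomogeneous 2)
    (hP : q ∈ curveIdeal k D) : q = 0 := by
  have h1 : ∀ f ∈ homogeneousSubmodule (Fin 5) k 2, psi D (par k D (ver k f)) = f := by
    rw [← homogeneousSubmodule_one_pow (σ := Fin 5) (R := k) (n := 2), pow_two,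
      homogeneousSubmodule_one_eq_span_X, Submodule.span_mul_span]
    intro f hf
    induction hf using Submodule.span_induction with
    | mem x hx =>
      obtain ⟨_, ⟨i, rfl⟩, _, ⟨j, rfl⟩, rfl⟩ := hx
      exact psi_XX hD i j
    | zero => simp
    | add x y _ _ hx hy => rw [map_add, map_add, map_add, hx, hy]
    | smul a x _ hx => rw [map_smul, map_smul, map_smul, hx]
  have h2 : par k D (ver k q) = 0 := hP
  rw [← h1 q hq, h2, map_zero]

lemma curveIdeal_prime (D : ℕ) : (curveIdeal k D).IsPrime := RingHom.ker_isPrime _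

lemma comp_hom {D : ℕ} {m : ℕ} {f : MvPolynomial (Fin 5) k} (hf : f.IsHomogeneous m) :
    (par k D (ver k f)).IsHomogeneous ((D + 1) * (2 * m)) := by
  have h1 : (ver k f).IsHomogeneous (2 * m) := hf.aeval _ (fun i => w_hom i)
  apply h1.aeval
  intro i
  have e : D + 1 = D + 1 * 1 := by ring
  fin_cases i
  · simpa using (isHomogeneous_X k (0 : Fin 2)).pow (D + 1)
  · have := ((isHomogeneous_X k (0 : Fin 2)).pow D).mul (isHomogeneous_X k (1 : Fin 2))
    simpa using this
  · simpa using (isHomogeneous_X k (1 : Fin 2)).pow (D + 1)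

lemma curveIdeal_homog (D : ℕ) (f : MvPolynomial (Fin 5) k) (hf : f ∈ curveIdeal k D) (d : ℕ) :
    homogeneousComponent d f ∈ curveIdeal k D := by
  set φ := (par k D).comp (ver k) with hφ
  have hmem : ∀ g, g ∈ curveIdeal k D ↔ φ g = 0 := fun g => RingHom.mem_ker
  rw [hmem] at hf ⊢
  have h1 : ∑ i ∈ Finset.range (f.totalDegree + 1), φ (homogeneousComponent i f) = 0 := by
    rw [← map_sum, sum_homogeneousComponent, hf]
  have h2 := congrArg (homogeneousComponent ((D + 1) * (2 * d))) h1
  rw [map_sum, map_zero] at h2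
  have h3 : ∀ i, homogeneousComponent ((D + 1) * (2 * d)) (φ (homogeneousComponent i f)) =
      if i = d then φ (homogeneousComponent i f) else 0 := by
    intro i
    have h4 : (φ (homogeneousComponent i f)).IsHomogeneous ((D + 1) * (2 * i)) :=
      comp_hom (homogeneousComponent_isHomogeneous i f)
    rw [homogeneousComponent_of_mem h4]
    by_cases hid : i = d
    · rw [if_pos hid, hid, if_pos rfl]
    · rw [if_neg hid, if_neg]
      intro h
      apply hid
      have := Nat.eq_of_mul_eq_mul_left (by omega) h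
      omega
  simp only [h3] at h2
  by_cases hd : d ∈ Finset.range (f.totalDegree + 1)
  · rw [Finset.sum_ite_eq_of_mem' _ _ _ hd] at h2
    exact h2
  · rw [homogeneousComponent_eq_zero, map_zero]
    rw [Finset.mem_range] at hd
    omega

/-- The finite set of exponents `(b, c)` of the monomials of degree `M` modulo the equation. -/
def pairs (D M : ℕ) : Finset (ℕ × ℕ) :=
  ((Finset.range (D + 1)) ×ˢ (Finset.range (M + 1))).filter fun bc => bc.1 + bc.2 ≤ M

lemma card_pairs (D M : ℕ) (hM : D ≤ M) :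
    2 * (pairs D M).card = (D + 1) * (2 * M + 2 - D) := by
  have h1 : (pairs D M).card = ∑ b ∈ Finset.range (D + 1), (M + 1 - b) := by
    rw [pairs, Finset.card_filter, Finset.sum_product]
    apply Finset.sum_congr rfl
    intro b hb
    have hbD := Finset.mem_range.mp hb
    rw [← Finset.card_filter]
    have : (Finset.range (M + 1)).filter (fun c => b + c ≤ M) = Finset.range (M + 1 - b) := by
      ext c
      rw [Finset.mem_filter, Finset.mem_range, Finset.mem_range]
      omega
    rw [this, Finset.card_range]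
  rw [h1]
  clear h1
  induction D with
  | zero => simp; omega
  | succ D ih =>
    rw [Finset.sum_range_succ, mul_add, ih (by omega)]
    obtain ⟨t, rfl⟩ : ∃ t, M = D + 1 + t := ⟨M - (D + 1), by omega⟩
    have e1 : 2 * (D + 1 + t) + 2 - D = D + 2 * t + 4 := by omega
    have e2 : D + 1 + t + 1 - (D + 1) = t + 1 := by omega
    have e3 : 2 * (D + 1 + t) + 2 - (D + 1) = D + 2 * t + 3 := by omega
    rw [e1, e2, e3]
    ring

lemma v_reduce (D : ℕ) : ∀ b a c M : ℕ, a + b + c = M →
    ∃ bc ∈ pairs D M, v k D a b c = v k D (M - bc.1 - bc.2) bc.1 bc.2 := by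
  intro b
  induction b using Nat.strong_induction_on with
  | _ b ih =>
    intro a c M h
    by_cases hb : b ≤ D
    · refine ⟨(b, c), ?_, ?_⟩
      · rw [pairs, Finset.mem_filter, Finset.mem_product, Finset.mem_range, Finset.mem_range]
        simp only
        omega
      · have : M - b - c = a := by omega
        simp only [this]
    · obtain ⟨b', rfl⟩ : ∃ b', b = b' + (D + 1) := ⟨b - (D + 1), by omega⟩
      obtain ⟨bc, hbc, h1⟩ := ih b' (by omega) (a + D) (c + 1) M (by omega)
      refine ⟨bc, hbc, ?_⟩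
      rw [← h1, v, v]
      congr 2 <;> ring

lemma map_par (D M : ℕ) : (homogeneousSubmodule (Fin 3) k M).map (par k D).toLinearMap =
    Submodule.span k (Set.range fun bc : pairs D M =>
      v k D (M - bc.1.1 - bc.1.2) bc.1.1 bc.1.2) := by
  apply le_antisymm
  · rintro _ ⟨F, hF, rfl⟩
    have hF' : F.IsHomogeneous M := hF
    simp only [AlgHom.toLinearMap_apply]
    rw [F.as_sum, map_sum]
    apply Submodule.sum_mem
    intro d hd
    have hdeg : d 0 + d 1 + d 2 = M := by
      have := hF' (mem_support_iff.mp hd)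
      rw [← this, Finsupp.weight_apply, Finsupp.sum_fintype _ _ (by simp)]
      simp [Fin.sum_univ_three]
    have h1 : (monomial d (coeff d F) : MvPolynomial (Fin 3) k) =
        coeff d F • (X 0 ^ d 0 * X 1 ^ d 1 * X 2 ^ d 2) := by
      rw [monomial_eq, smul_eq_C_mul, Finsupp.prod_fintype _ _ (by simp), Fin.prod_univ_three]
    rw [h1, map_smul, par_mon]
    apply Submodule.smul_mem
    obtain ⟨bc, hbc, h2⟩ := v_reduce (k := k) D (d 1) (d 0) (d 2) M hdeg
    rw [h2]
    exact Submodule.subset_span ⟨⟨bc, hbc⟩, rfl⟩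
  · rw [Submodule.span_le]
    rintro _ ⟨⟨⟨b, c⟩, hbc⟩, rfl⟩
    rw [pairs, Finset.mem_filter] at hbc
    simp only at hbc ⊢
    refine ⟨X 0 ^ (M - b - c) * X 1 ^ b * X 2 ^ c, ?_, par_mon D _ _ _⟩
    have h1 := (((isHomogeneous_X k (0 : Fin 3)).pow (M - b - c)).mul
      ((isHomogeneous_X k (1 : Fin 3)).pow b)).mul ((isHomogeneous_X k (2 : Fin 3)).pow c)
    have h2 : 1 * (M - b - c) + 1 * b + 1 * c = M := by omega
    rwa [h2] at h1

lemma finrank_map_par (D M : ℕ) :
    Module.finrank k ((homogeneousSubmodule (Fin 3) k M).map (par k D).toLinearMap) =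
      (pairs D M).card := by
  rw [map_par]
  have hli : LinearIndependent k (fun bc : pairs D M =>
      v k D (M - bc.1.1 - bc.1.2) bc.1.1 bc.1.2) := by
    have h1 : (fun bc : pairs D M => v k D (M - bc.1.1 - bc.1.2) bc.1.1 bc.1.2) =
        (basisMonomials (Fin 2) k) ∘ fun bc : pairs D M =>
          Finsupp.single 0 ((D + 1) * (M - bc.1.1 - bc.1.2) + D * bc.1.1) +
            Finsupp.single 1 (bc.1.1 + (D + 1) * bc.1.2) := by
      funext bc
      rw [Function.comp_apply, coe_basisMonomials, v_eq]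
    rw [h1]
    apply (basisMonomials (Fin 2) k).linearIndependent.comp
    rintro ⟨⟨b, c⟩, hbc⟩ ⟨⟨b', c'⟩, hbc'⟩ h
    rw [pairs, Finset.mem_filter, Finset.mem_product, Finset.mem_range, Finset.mem_range]
      at hbc hbc'
    simp only at hbc hbc' h
    have h2 := DFunLike.congr_fun h (1 : Fin 2)
    simp at h2
    have hb : b = b' := by
      have h3 := congrArg (· % (D + 1)) h2
      simp only [Nat.add_mul_mod_self_left] at h3
      rwa [Nat.mod_eq_of_lt hbc.1.1, Nat.mod_eq_of_lt hbc'.1.1] at h3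
    subst hb
    have hc : c = c' := by
      have := Nat.add_left_cancel h2
      exact Nat.eq_of_mul_eq_mul_left (by omega) this
    subst hc
    rfl
  rw [finrank_span_eq_card hli, Fintype.card_coe]

lemma hilb_eq (D m : ℕ) (hm : 2 ≤ m) :
    hilb (curveIdeal k D) m = (pairs D (2 * m)).card := by
  rw [← finrank_map_par (k := k), S_eq m hm, ← map_ver, hilb]
  set φ := (par k D).comp (ver k) with hφ
  have hker : curveIdeal k D = RingHom.ker φ := rfl
  let ι : (MvPolynomial (Fin 5) k ⧸ curveIdeal k D) →ₐ[k] MvPolynomial (Fin 2) k :=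
    Ideal.Quotient.liftₐ (curveIdeal k D) φ (fun a ha => ha)
  have hι : Function.Injective ι := by
    rw [injective_iff_map_eq_zero]
    intro a ha
    obtain ⟨b, rfl⟩ := Ideal.Quotient.mk_surjective a
    rw [Ideal.Quotient.eq_zero_iff_mem]
    exact ha
  have hcomp : ι.toLinearMap.comp (Ideal.Quotient.mkₐ k (curveIdeal k D)).toLinearMap =
      (par k D).toLinearMap.comp (ver k).toLinearMap := by
    ext
    rfl
  rw [← Submodule.map_comp, ← hcomp, Submodule.map_comp]
  exact (LinearEquiv.finrank_eq (Submodule.equivMapOfInjective ι.toLinearMap hι _))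

lemma hasDimDegree (D : ℕ) : HasDimDegree (curveIdeal k D) 1 (2 * (D + 1)) := by
  refine ⟨Polynomial.C (2 * ((D : ℚ) + 1)) * Polynomial.X +
    Polynomial.C (((D : ℚ) + 1) * (2 - D) / 2), ?_, ?_, D + 2, ?_⟩
  · apply Polynomial.natDegree_linear
    positivity
  · rw [Polynomial.leadingCoeff_linear (by positivity)]
    push_cast
    simp
  · intro m hm
    rw [hilb_eq D m (by omega)]
    have h1 := card_pairs D (2 * m) (by omega)
    have h2 : (2 : ℚ) * (pairs D (2 * m)).card = ((D : ℚ) + 1) * (2 * (2 * m) + 2 - D) := by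
      have h3 : ((2 * (pairs D (2 * m)).card : ℕ) : ℚ) =
          (((D + 1) * (2 * (2 * m) + 2 - D) : ℕ) : ℚ) := by rw [h1]
      rw [Nat.cast_mul, Nat.cast_mul, Nat.cast_sub (by omega)] at h3
      push_cast at h3
      exact h3
    simp only [Polynomial.eval_add, Polynomial.eval_mul, Polynomial.eval_C, Polynomial.eval_X]
    linarith

/-- A linear functional vanishing on `W` but not on `y²`. -/
noncomputable def lam : MvPolynomial (Fin 3) k →ₗ[k] k :=
  (aeval ![(0 : k), 1, 0]).toLinearMap + (aeval ![(1 : k), 0, 1]).toLinearMap -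
    (aeval ![(1 : k), 0, 0]).toLinearMap - (aeval ![(0 : k), 0, 1]).toLinearMap

lemma y2_notMem : (X 1 ^ 2 : MvPolynomial (Fin 3) k) ∉ W k := by
  intro h
  have h1 : W k ≤ LinearMap.ker (lam (k := k)) := by
    rw [W, Submodule.span_le]
    rintro _ ⟨i, rfl⟩
    rw [SetLike.mem_coe, LinearMap.mem_ker]
    fin_cases i <;> simp [lam, w]
  have h2 := h1 h
  rw [LinearMap.mem_ker] at h2
  simp [lam] at h2

lemma component_ver (d : ℕ) (f : MvPolynomial (Fin 5) k) :
    homogeneousComponent (2 * d) (ver k f) = ver k (homogeneousComponent d f) := by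
  have h1 : ver k f = ∑ i ∈ Finset.range (f.totalDegree + 1), ver k (homogeneousComponent i f) := by
    rw [← map_sum, sum_homogeneousComponent]
  have h3 : ∀ i, homogeneousComponent (2 * d) (ver k (homogeneousComponent i f)) =
      if i = d then ver k (homogeneousComponent i f) else 0 := by
    intro i
    have h4 : (ver k (homogeneousComponent i f)).IsHomogeneous (2 * i) :=
      (homogeneousComponent_isHomogeneous i f).aeval _ (fun i => w_hom i)
    rw [homogeneousComponent_of_mem h4]
    by_cases hid : i = d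
    · rw [if_pos hid, hid, if_pos rfl]
    · rw [if_neg hid, if_neg]
      omega
  rw [h1, map_sum]
  simp only [h3]
  by_cases hd : d ∈ Finset.range (f.totalDegree + 1)
  · rw [Finset.sum_ite_eq_of_mem' _ _ _ hd]
  · rw [homogeneousComponent_eq_zero, map_zero]
    · apply Finset.sum_eq_zero
      intro i hi
      rw [if_neg]
      rintro rfl
      exact hd hi
    · rw [Finset.mem_range] at hd
      omega

lemma not_ND [Infinite k] (D : ℕ) : ¬ ND 3 2 (curveIdeal k D) := by
  intro hND
  obtain ⟨g, hg, h⟩ := hND 1 (by norm_num)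
  obtain ⟨a, ha⟩ : ∃ a : Fin 1 × Fin 5 → k, eval a (g * X (0, 0)) ≠ 0 := by
    by_contra! hno
    have : g * X (0, 0) = 0 := MvPolynomial.funext (fun a => by rw [hno a, map_zero])
    exact mul_ne_zero hg (X_ne_zero _) this
  rw [map_mul, eval_X] at ha
  have hga : eval a g ≠ 0 := left_ne_zero_of_mul ha
  have ha0 : a (0, 0) ≠ 0 := right_ne_zero_of_mul ha
  set L : MvPolynomial (Fin 5) k := ∑ j, C (a (0, j)) * X j with hL
  have hlin : linIdeal a = Ideal.span {L} := by
    rw [linIdeal]
    congr 1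
    ext f
    constructor
    · rintro ⟨i, rfl⟩
      rw [Subsingleton.elim i 0]
      rfl
    · rintro rfl
      exact ⟨0, rfl⟩
  have hLver : ver k L = ∑ j, C (a (0, j)) * w k j := by
    rw [hL, map_sum]
    apply Finset.sum_congr rfl
    intro j _
    simp [ver]
  have hLhom : (ver k L).IsHomogeneous 2 := by
    rw [hLver]
    apply IsHomogeneous.sum
    intro j _
    simpa using (isHomogeneous_C (Fin 3) (a (0, j))).mul (w_hom (k := k) j)
  have hL0 : ver k L ≠ 0 := by
    intro h0
    have h1 := congrArg (eval ![(1 : k), 0, 0]) h0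
    rw [hLver, map_sum, Fin.sum_univ_five] at h1
    simp [w] at h1
    exact ha0 h1
  have hy2 : (X 1 ^ 2 : MvPolynomial (Fin 3) k).IsHomogeneous 2 := by
    simpa using (isHomogeneous_X k (1 : Fin 3)).pow 2
  have hlift : ∀ F : MvPolynomial (Fin 3) k, F.IsHomogeneous 4 →
      ∃ q : MvPolynomial (Fin 5) k, q.IsHomogeneous 2 ∧ ver k q = F := by
    intro F hF
    have h1 : F ∈ W k ^ 2 := S4_le hF
    rw [← map_ver] at h1
    obtain ⟨q, hq, hqF⟩ := h1
    exact ⟨q, hq, hqF⟩
  obtain ⟨q, hq, hqF⟩ := hlift (ver k L * X 1 ^ 2) (hLhom.mul hy2)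
  have hqn : q ∉ linIdeal a := by
    rw [hlin, Ideal.mem_span_singleton]
    rintro ⟨l, rfl⟩
    rw [map_mul] at hqF
    have h1 : ver k l = X 1 ^ 2 := mul_left_cancel₀ hL0 hqF
    have h2 := component_ver 1 l
    rw [h1] at h2
    have h3 : homogeneousComponent (2 * 1) (X 1 ^ 2 : MvPolynomial (Fin 3) k) = X 1 ^ 2 := by
      rw [homogeneousComponent_of_mem hy2, if_pos rfl]
    rw [h3] at h2
    apply y2_notMem (k := k)
    rw [h2]
    have h4 : ver k (homogeneousComponent 1 l) ∈
        (homogeneousSubmodule (Fin 5) k 1).map (ver k).toLinearMap :=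
      ⟨_, homogeneousComponent_isHomogeneous 1 l, rfl⟩
    rwa [map_ver, pow_one] at h4
  apply hqn
  apply h a hga q hq
  refine ⟨1, fun g' hg' => ?_⟩
  rw [pow_one] at hg'
  induction hg' using Submodule.span_induction with
  | mem x hx =>
    obtain ⟨i, rfl⟩ := hx
    obtain ⟨g'', -, hg''⟩ := hlift (X 1 ^ 2 * w k i) (hy2.mul (w_hom i))
    have h1 : X i * q = (X i * q - L * g'') + L * g'' := by ring
    rw [h1]
    apply Ideal.add_mem
    · apply Ideal.mem_sup_left
      change par k D (ver k (X i * q - L * g'')) = 0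
      have h2 : ver k (X i * q - L * g'') = 0 := by
        rw [map_sub, map_mul, map_mul, hqF, hg'']
        have : ver k (X i) = w k i := by simp [ver]
        rw [this]
        ring
      rw [h2, map_zero]
    · apply Ideal.mem_sup_right
      rw [hlin]
      exact Ideal.mul_mem_right _ _ (Ideal.mem_span_singleton_self L)
  | zero => rw [zero_mul]; exact Ideal.zero_mem _
  | add x y _ _ hx hy => rw [add_mul]; exact Ideal.add_mem _ hx hy
  | smul c x _ hx => rw [smul_eq_mul, mul_assoc]; exact Ideal.mul_mem_left _ _ hx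

end Curve

/-- Over every algebraically closed field of characteristic zero there are, for `e = 3` and
`l = 2`, varieties of codimension `e` and arbitrarily large degree (curves in `P⁴`), lying on no
hypersurface of degree `l`, that fail ND(l). -/
theorem result {k : Type*} [Field k] [IsAlgClosed k] [CharZero k] (f : ℕ) :
    ∃ P : Ideal (MvPolynomial (Fin 5) k), IsVarietyIdeal P ∧
      (∃ d : ℕ, f < d ∧ HasDimDegree P 1 d) ∧
      (∀ q ∈ P, q.IsHomogeneous 2 → q = 0) ∧ ¬ ND 3 2 P := by
  refine ⟨curveIdeal k (f + 4), ⟨curveIdeal_prime _, curveIdeal_homog _⟩,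
    ⟨2 * (f + 4 + 1), by omega, hasDimDegree _⟩,
    fun q hq hq2 => no_quadric (by omega) hq2 hq, not_ND _⟩

end Pool.Agent.Results.MP_63e4a9_ag.NoDegreeBound
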